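import Pool.Agent.W999.DL.Stms

/-! # Project DL: `S_UNION` and `S_FALL` -/

namespace Pool.Agent.W304.DL

open Pool.Agent.W999.DL

theorem union : S_UNION := by
  classical
  intro S S' N N' ⟨L, φ, F, hF, hm, hc⟩ ⟨L', φ', F', hF', hm', hc'⟩
  refine ⟨L ⊕ L', fun t u => if t ∈ S then Sum.inl (φ t u) else Sum.inr (φ' t u),
    F.disjSum F', ?_, ?_, ?_⟩
  · rw [Finset.card_disjSum]; omega
  · intro t ht u hu
    by_cases h : t ∈ S
    · simp only [h, if_true]
      exact Finset.inl_mem_disjSum.2 (hm t h u hu)
    · simp only [h, if_false]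
      exact Finset.inr_mem_disjSum.2 (hm' t (ht.resolve_left h) u hu)
  · intro t ht t' ht' u hu v hv u' hu' v' hv' h1 h2
    by_cases h : t ∈ S <;> by_cases h' : t' ∈ S
    · simp only [h, h', if_true, Sum.inl.injEq] at h1 h2
      exact hc t h t' h' u hu v hv u' hu' v' hv' h1 h2
    · simp [h, h'] at h1
    · simp [h, h'] at h1
    · simp only [h, h', if_false, Sum.inr.injEq] at h1 h2
      exact hc' t (ht.resolve_left h) t' (ht'.resolve_left h') u hu v hv u' hu' v' hv' h1 h2

theorem fall : S_FALL := by
  classical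
  intro S n B hn hB
  obtain ⟨b, hbi, hbB⟩ : ∃ b : ℕ → ℕ, Set.InjOn b S ∧ ∀ t ∈ S, b t < B ^ 2 := by
    refine ⟨fun t => if h : t ∈ S then (S.equivFin ⟨t, h⟩ : ℕ) else 0, ?_, ?_⟩
    · intro t ht t' ht' h
      have ht1 : t ∈ S := ht
      have ht2 : t' ∈ S := ht'
      simp only [ht1, ht2, dif_pos] at h
      have := S.equivFin.injective (Fin.ext h)
      exact congrArg Subtype.val this
    · intro t ht
      simp only [ht, dif_pos]
      exact lt_of_lt_of_le (Fin.is_lt _) hB
  refine ⟨Bool × ℕ × ℕ, fun t u => if u < (t + 1) / 2 then (false, b t / B, u)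
    else (true, b t % B, u - (t + 1) / 2),
    (Finset.univ : Finset Bool) ×ˢ (Finset.range B ×ˢ Finset.range (n + 1)), ?_, ?_, ?_⟩
  · rw [Finset.card_product, Finset.card_product, Finset.card_range, Finset.card_range,
      Finset.card_univ, Fintype.card_bool]
    exact le_of_eq (mul_assoc _ _ _).symm
  · intro t ht u hu
    have ht1 : t ∈ S := ht
    have h1 := hbB t ht1
    have h2 := hn t ht1
    have hBpos : 0 < B := by
      rcases Nat.eq_zero_or_pos B with h | h
      · subst h; simp at h1
      · exact h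
    dsimp only
    split_ifs with h
    · simp only [Finset.mem_product, Finset.mem_univ, Finset.mem_range, true_and]
      exact ⟨Nat.div_lt_of_lt_mul (by rw [← pow_two]; exact h1), by omega⟩
    · simp only [Finset.mem_product, Finset.mem_univ, Finset.mem_range, true_and]
      exact ⟨Nat.mod_lt _ hBpos, by omega⟩
  · intro t ht t' ht' u hu v hv u' hu' v' hv' h1 h2
    have ht1 : t ∈ S := ht
    have ht1' : t' ∈ S := ht'
    have key : b t / B = b t' / B → b t % B = b t' % B → t = t' := by
      intro e1 e2
      apply hbi ht ht'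
      rw [← Nat.div_add_mod (b t) B, ← Nat.div_add_mod (b t') B, e1, e2]
    by_cases c1 : u < (t + 1) / 2 <;> by_cases c2 : v < (t + 1) / 2 <;>
      by_cases c3 : u' < (t' + 1) / 2 <;> by_cases c4 : v' < (t' + 1) / 2 <;>
      simp only [c1, c2, c3, c4, if_true, if_false, Prod.mk.injEq, true_and, false_and,
        Bool.false_eq_true, Bool.true_eq_false] at h1 h2
    · obtain ⟨-, rfl⟩ := h1
      obtain ⟨-, rfl⟩ := h2
      unfold cdist
      omega
    · obtain rfl := key h1.1 h2.1
      have e2 : v = v' := by omega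
      rw [h1.2, e2]
    · obtain rfl := key h2.1 h1.1
      have e2 : u = u' := by omega
      rw [h2.2, e2]
    · have e1 := h1.2
      have e2 := h2.2
      unfold cdist
      omega

end Pool.Agent.W304.DL
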